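import Pool.Agent.H44.AR.BasicA

/-!
# All reducts, all arities: the restriction to a core, normalization
-/

set_option autoImplicit false

namespace Pool.Agent.H81.AR

open Pool.Agent.H68.BP Pool.Agent.H58.SF Pool.Agent.H53.GC Pool.Agent.H53.NR Pool.Agent.H53.GR
open Pool.Agent.H57.AR Pool.Agent.H44.AR
open Pool.Agent.H57.SO (Pal Col vt Sb FBl)
open Pool.Agent.H57.EQ (Cx)

theorem iter_fin {Θ : Type} [Finite Θ] (π : Θ → Θ) (h : Function.Bijective π) :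
    ∃ j : ℕ, ∀ s, π^[j] (π s) = s := by
  set e : Equiv.Perm Θ := Equiv.ofBijective π h with he
  have h0 : 0 < orderOf e := orderOf_pos e
  refine ⟨orderOf e - 1, fun s => ?_⟩
  rw [← Function.iterate_succ_apply, Nat.succ_eq_add_one, Nat.sub_add_cancel h0]
  have h1 : (⇑(e ^ orderOf e) : Θ → Θ) = (⇑e)^[orderOf e] := Equiv.Perm.iterate_eq_pow e _ |>.symm
  have h2 : (⇑e : Θ → Θ) = π := rfl
  rw [← h2, ← h1, pow_orderOf_eq_one]
  rfl

/-- composition with a canonical unary map -/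
def cmp {V : Type} {ρ : Sig} (m : (k : ℕ) → OT ρ (Fin k) → OT ρ (Fin k))
    (h : OT ρ (Fin 6 → V)) : OT ρ (Fin 6 → V) :=
  (fun l z => (m (ρ.ar l) (pullO h z)).1 l (fun a => a), fun v w => (m 2 (pullO h ![v, w])).2 0 1)

theorem cmp_congr {V W : Type} {ρ : Sig} (m : (k : ℕ) → OT ρ (Fin k) → OT ρ (Fin k))
    (h : OT ρ (Fin 6 → V)) {u u' : W → Fin 6 → V} (hu : pullO h u = pullO h u') :
    pullO (cmp m h) u = pullO (cmp m h) u' := by
  have key : ∀ (Z : Type) (z : Z → W), pullO h (fun a => u (z a)) = pullO h (fun a => u' (z a)) :=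
    fun Z z => congrArg (fun t => pullO t z) hu
  have e : ∀ (v : W → Fin 6 → V) (a b : W), ![v a, v b] = fun c => v (![a, b] c) := by
    intro v a b
    funext c
    fin_cases c <;> rfl
  refine Prod.ext ?_ ?_
  · funext l z
    show (m (ρ.ar l) (pullO h (fun i => u (z i)))).1 l (fun a => a) =
      (m (ρ.ar l) (pullO h (fun i => u' (z i)))).1 l (fun a => a)
    rw [key]
  · funext a b
    show (m 2 (pullO h ![u a, u b])).2 0 1 = (m 2 (pullO h ![u' a, u' b])).2 0 1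
    rw [e u a b, e u' a b, key]

theorem tpo_cmp {V W : Type} [LinearOrder V] {ρ : Sig} {𝔹 : Str ρ V}
    {m : (k : ℕ) → OT ρ (Fin k) → OT ρ (Fin k)}
    {h : OT ρ (Fin 6 → V)} {u : W → Fin 6 → V} {ψ φ : W → V} (hψ : tpo 𝔹 ψ = pullO h u)
    (hφ : ∀ (k : ℕ) (z : Fin k → W),
      tpo 𝔹 (fun a => φ (z a)) = m k (tpo 𝔹 (fun a => ψ (z a)))) :
    tpo 𝔹 φ = pullO (cmp m h) u := by
  have key : ∀ (k : ℕ) (z : Fin k → W),
      tpo 𝔹 (fun a => φ (z a)) = m k (pullO h (fun a => u (z a))) := by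
    intro k z
    rw [hφ k z]
    exact congrArg (fun t => m k (pullO t z)) hψ
  refine Prod.ext ?_ ?_
  · funext l z
    exact congrFun (congrFun (congrArg Prod.fst (key (ρ.ar l) z)) l) (fun a => a)
  · funext a b
    have h1 := congrFun (congrFun (congrArg Prod.snd (key 2 ![a, b])) 0) 1
    have e : ![u a, u b] = fun c => u (![a, b] c) := by
      funext c
      fin_cases c <;> rfl
    show (φ a < φ b) = (m 2 (pullO h ![u a, u b])).2 0 1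
    rw [e]
    exact h1

theorem pf_STN (hUKM : T_UKM) (hPRM : T_PRM) (hFRB : T_FRB) : T_STN := by
  classical
  intro σ ρ V _ 𝔸 𝔹 M B D h hS h1 h2
  obtain ⟨x0⟩ := B.ne
  obtain ⟨-, hfree⟩ := hFRB ρ V 𝔹 M B
  choose g hg hgt using hfree
  set F : T1 ρ → Fin 6 → V := fun t => if ht : ∃ x, ty 𝔹 x = t then g ht.choose else g x0 with hF
  have hFx : ∀ x, Gb 𝔹 (F (ty 𝔹 x)) ∧ ∀ l, ty 𝔹 (F (ty 𝔹 x) l) = ty 𝔹 x := by
    intro x
    have hx : ∃ y, ty 𝔹 y = ty 𝔹 x := ⟨x, rfl⟩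
    have e : F (ty 𝔹 x) = g hx.choose := by
      rw [hF]
      exact dif_pos hx
    rw [e]
    exact ⟨hg _, fun l => (hgt _ l).trans hx.choose_spec⟩
  obtain ⟨m, hm, hmt, -⟩ := hUKM σ ρ V 𝔸 𝔹 M B D h hS (ty 𝔹 x0) (F (ty 𝔹 x0))
    (fun x => F (ty 𝔹 x)) (hFx x0).2 (fun x hx => by show F (ty 𝔹 x) = _; rw [hx])
    (fun x _ => hFx x) (fun x y hxy => by show F (ty 𝔹 x) = F (ty 𝔹 y); rw [hxy])
  -- blocks of elements of one type
  have hblk : ∀ (x : V) (z : Fin 6 → V), (∀ l, ty 𝔹 (z l) = ty 𝔹 x) →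
      tyO h z = tm m (ty 𝔹 x) := by
    intro x z hz
    rw [hmt x]
    exact hPRM σ ρ V 𝔸 𝔹 M B D h hS h1 (ty 𝔹 x) z _ hz (hFx x).2
  -- the permutation of the realized types
  let π : Set.range (ty 𝔹) → Set.range (ty 𝔹) := fun r => ⟨tm m r.1, by
    obtain ⟨x, hx⟩ := r.2
    obtain ⟨y, hy⟩ := hm.tm_mem x
    exact ⟨y, by rw [hy, hx]⟩⟩
  have hπ : Function.Bijective π := by
    rw [← Finite.injective_iff_bijective]
    rintro ⟨_, x, rfl⟩ ⟨_, y, rfl⟩ hxy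
    have h3 : tm m (ty 𝔹 x) = tm m (ty 𝔹 y) := congrArg Subtype.val hxy
    exact Subtype.ext (h1 m hm x y h3)
  obtain ⟨j, hj⟩ := iter_fin π hπ
  have key : ∀ j : ℕ, UM 𝔹 𝔹 𝔸 𝔸 (fun k => (m k)^[j]) ∧
      ∀ r : Set.range (ty 𝔹), tm (fun k => (m k)^[j]) r.1 = (π^[j] r).1 := by
    intro j
    induction j with
    | zero => exact ⟨UM.refl, fun r => rfl⟩
    | succ j ih =>
      refine ⟨hm.comp ih.1, ?_⟩
      rintro ⟨_, x, rfl⟩
      rw [Function.iterate_succ_apply, ← ih.2]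
      exact hm.tm_comp ih.1 x
  obtain ⟨hm', hmt'⟩ := key j
  refine ⟨cmp (fun k => (m k)^[j]) h, ⟨⟨hS.blind, ?_, ?_, ?_⟩, h1, h2, ?_⟩⟩
  · intro W _ G
    obtain ⟨ψ, hψ, hψt⟩ := hS.pm W G
    obtain ⟨φ, hφ, hφt⟩ := hm' W ψ
    exact ⟨φ, fun l z hz => hφ l z (hψ l z hz), tpo_cmp hψt hφt⟩
  · intro k v v' hv
    exact cmp_congr _ h (hS.tid k v v' hv)
  · intro r
    exact cmp_congr _ h (hS.exact r)
  · intro s z hz
    have hs : s = ty 𝔹 (z 0) := (hz 0).symm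
    subst hs
    obtain ⟨ψ, -, hψ⟩ := hS.pm (Fin 1) (fun i _ => z i)
    obtain ⟨φ, -, hφ⟩ := hm' (Fin 1) ψ
    have h3 := tpo_cmp hψ hφ
    have h4 : ty 𝔹 (φ 0) = tyO (cmp (fun k => (m k)^[j]) h) z := by
      rw [← tyO_tpo (𝔹 := 𝔹) φ, h3]
      rfl
    have h5 : ty 𝔹 (ψ 0) = tyO h z := by
      rw [← tyO_tpo (𝔹 := 𝔹) ψ, hψ]
      rfl
    have h6 : ty 𝔹 (φ 0) = tm (fun k => (m k)^[j]) (ty 𝔹 (ψ 0)) := hm'.ty_eq hφ 0
    rw [← h4, h6, h5, hblk (z 0) z hz]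
    have h7 := hmt' (π ⟨ty 𝔹 (z 0), z 0, rfl⟩)
    rw [hj] at h7
    exact h7

end Pool.Agent.H81.AR
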